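import Pool.Agent.U728.Lie.Stm

set_option autoImplicit false

/-!
Project LA (helper728), package LIE (helper591): if the elementary theory of a Lie algebra is decidable, then so
is its universal theory.
-/

namespace Pool.Agent.U591.LA

open Pool.Agent.Helper967.FL Pool.Agent.U728.Lie

universe u v

/-- the quantifier-free formula as a first-order formula -/
def emb : LForm → LFull
  | .eqF s t => .eqF s t
  | .eqL s t => .eqL s t
  | .not p => .not (emb p)
  | .and p q => .and (emb p) (emb q)
  | .or p q => .or (emb p) (emb q)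

lemma emb_code (p : LForm) : (emb p).code = p.code := by
  induction p with
  | eqF s t => rfl
  | eqL s t => rfl
  | not p ih => simp only [emb, LFull.code, LForm.code, ih]
  | and p q ih1 ih2 => simp only [emb, LFull.code, LForm.code, ih1, ih2]
  | or p q ih1 ih2 => simp only [emb, LFull.code, LForm.code, ih1, ih2]

section sem

variable {F : Type u} {L : Type v} [Field F] [LieRing L] [LieAlgebra F L]

lemma emb_holds (p : LForm) (e : ℕ → F) (g : ℕ → L) : (emb p).Holds e g ↔ p.Holds e g := by
  induction p with
  | eqF s t => exact Iff.rfl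
  | eqL s t => exact Iff.rfl
  | not p ih => exact not_congr ih
  | and p q ih1 ih2 => exact and_congr ih1 ih2
  | or p q ih1 ih2 => exact or_congr ih1 ih2

end sem

lemma le1 (c a b : ℕ) : a ≤ Nat.pair c (Nat.pair a b) :=
  (Nat.left_le_pair a b).trans (Nat.right_le_pair c _)

lemma le2 (c a b : ℕ) : b ≤ Nat.pair c (Nat.pair a b) :=
  (Nat.right_le_pair a b).trans (Nat.right_le_pair c _)

lemma fvars_le (t : FTerm) : ∀ i ∈ fvars t, i ≤ t.code := by
  induction t with
  | var j =>
    rintro i hi
    have : i = j := hi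
    rw [this]
    exact Nat.right_le_pair _ _
  | zero => rintro i ⟨⟩
  | one => rintro i ⟨⟩
  | add s t h1 h2 =>
    rintro i (hi | hi)
    · exact (h1 i hi).trans (le1 _ _ _)
    · exact (h2 i hi).trans (le2 _ _ _)
  | mul s t h1 h2 =>
    rintro i (hi | hi)
    · exact (h1 i hi).trans (le1 _ _ _)
    · exact (h2 i hi).trans (le2 _ _ _)

lemma lfvars_le (t : LTerm) : ∀ i ∈ lfvars t, i ≤ t.code := by
  induction t with
  | var j => rintro i ⟨⟩
  | zero => rintro i ⟨⟩
  | add s t h1 h2 =>
    rintro i (hi | hi)
    · exact (h1 i hi).trans (le1 _ _ _)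
    · exact (h2 i hi).trans (le2 _ _ _)
  | lie s t h1 h2 =>
    rintro i (hi | hi)
    · exact (h1 i hi).trans (le1 _ _ _)
    · exact (h2 i hi).trans (le2 _ _ _)
  | smul c t h =>
    rintro i (hi | hi)
    · exact (fvars_le c i hi).trans (le1 _ _ _)
    · exact (h i hi).trans (le2 _ _ _)

lemma llvars_le (t : LTerm) : ∀ i ∈ llvars t, i ≤ t.code := by
  induction t with
  | var j =>
    rintro i hi
    have : i = j := hi
    rw [this]
    exact Nat.right_le_pair _ _
  | zero => rintro i ⟨⟩
  | add s t h1 h2 =>
    rintro i (hi | hi)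
    · exact (h1 i hi).trans (le1 _ _ _)
    · exact (h2 i hi).trans (le2 _ _ _)
  | lie s t h1 h2 =>
    rintro i (hi | hi)
    · exact (h1 i hi).trans (le1 _ _ _)
    · exact (h2 i hi).trans (le2 _ _ _)
  | smul c t h =>
    rintro i hi
    exact (h i hi).trans (le2 _ _ _)

lemma freeF_le (p : LForm) : ∀ i ∈ (emb p).freeF, i ≤ p.code := by
  induction p with
  | eqF s t =>
    rintro i (hi | hi)
    · exact (fvars_le s i hi).trans (le1 _ _ _)
    · exact (fvars_le t i hi).trans (le2 _ _ _)
  | eqL s t =>
    rintro i (hi | hi)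
    · exact (lfvars_le s i hi).trans (le1 _ _ _)
    · exact (lfvars_le t i hi).trans (le2 _ _ _)
  | not p ih => exact fun i hi => (ih i hi).trans (Nat.right_le_pair _ _)
  | and p q h1 h2 =>
    rintro i (hi | hi)
    · exact (h1 i hi).trans (le1 _ _ _)
    · exact (h2 i hi).trans (le2 _ _ _)
  | or p q h1 h2 =>
    rintro i (hi | hi)
    · exact (h1 i hi).trans (le1 _ _ _)
    · exact (h2 i hi).trans (le2 _ _ _)

lemma freeL_le (p : LForm) : ∀ i ∈ (emb p).freeL, i ≤ p.code := by
  induction p with
  | eqF s t => rintro i ⟨⟩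
  | eqL s t =>
    rintro i (hi | hi)
    · exact (llvars_le s i hi).trans (le1 _ _ _)
    · exact (llvars_le t i hi).trans (le2 _ _ _)
  | not p ih => exact fun i hi => (ih i hi).trans (Nat.right_le_pair _ _)
  | and p q h1 h2 =>
    rintro i (hi | hi)
    · exact (h1 i hi).trans (le1 _ _ _)
    · exact (h2 i hi).trans (le2 _ _ _)
  | or p q h1 h2 =>
    rintro i (hi | hi)
    · exact (h1 i hi).trans (le1 _ _ _)
    · exact (h2 i hi).trans (le2 _ _ _)

section sem

variable {F : Type u} {L : Type v} [Field F] [LieRing L] [LieAlgebra F L]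

lemma fval_congr (t : FTerm) {e e' : ℕ → F} (h : ∀ i ∈ fvars t, e i = e' i) :
    t.val e = t.val e' := by
  induction t with
  | var j => exact h j rfl
  | zero => rfl
  | one => rfl
  | add s t h1 h2 =>
    simp only [FTerm.val]
    rw [h1 fun i hi => h i (Or.inl hi), h2 fun i hi => h i (Or.inr hi)]
  | mul s t h1 h2 =>
    simp only [FTerm.val]
    rw [h1 fun i hi => h i (Or.inl hi), h2 fun i hi => h i (Or.inr hi)]

lemma lval_congr (t : LTerm) {e e' : ℕ → F} {g g' : ℕ → L} (h : ∀ i ∈ lfvars t, e i = e' i)
    (h' : ∀ i ∈ llvars t, g i = g' i) : t.val e g = t.val e' g' := by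
  induction t with
  | var j => exact h' j rfl
  | zero => rfl
  | add s t h1 h2 =>
    simp only [LTerm.val]
    rw [h1 (fun i hi => h i (Or.inl hi)) (fun i hi => h' i (Or.inl hi)),
      h2 (fun i hi => h i (Or.inr hi)) (fun i hi => h' i (Or.inr hi))]
  | lie s t h1 h2 =>
    simp only [LTerm.val]
    rw [h1 (fun i hi => h i (Or.inl hi)) (fun i hi => h' i (Or.inl hi)),
      h2 (fun i hi => h i (Or.inr hi)) (fun i hi => h' i (Or.inr hi))]
  | smul c t h1 =>
    simp only [LTerm.val]
    rw [fval_congr c fun i hi => h i (Or.inl hi), h1 (fun i hi => h i (Or.inr hi)) h']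

lemma holds_congr (p : LForm) {e e' : ℕ → F} {g g' : ℕ → L} (h : ∀ i ∈ (emb p).freeF, e i = e' i)
    (h' : ∀ i ∈ (emb p).freeL, g i = g' i) : p.Holds e g ↔ p.Holds e' g' := by
  induction p with
  | eqF s t =>
    simp only [LForm.Holds]
    rw [fval_congr s fun i hi => h i (Or.inl hi), fval_congr t fun i hi => h i (Or.inr hi)]
  | eqL s t =>
    simp only [LForm.Holds]
    rw [lval_congr s (fun i hi => h i (Or.inl hi)) (fun i hi => h' i (Or.inl hi)),
      lval_congr t (fun i hi => h i (Or.inr hi)) (fun i hi => h' i (Or.inr hi))]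
  | not p ih => exact not_congr (ih h h')
  | and p q h1 h2 =>
    exact and_congr (h1 (fun i hi => h i (Or.inl hi)) (fun i hi => h' i (Or.inl hi)))
      (h2 (fun i hi => h i (Or.inr hi)) (fun i hi => h' i (Or.inr hi)))
  | or p q h1 h2 =>
    exact or_congr (h1 (fun i hi => h i (Or.inl hi)) (fun i hi => h' i (Or.inl hi)))
      (h2 (fun i hi => h i (Or.inr hi)) (fun i hi => h' i (Or.inr hi)))

end sem

/-- quantifiers over the first `n` field variables -/
def allFs : ℕ → LFull → LFull
  | 0, p => p
  | n + 1, p => .allF n (allFs n p)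

/-- quantifiers over the first `n` algebra variables -/
def allLs : ℕ → LFull → LFull
  | 0, p => p
  | n + 1, p => .allL n (allLs n p)

lemma allFs_freeF (n : ℕ) (p : LFull) : (allFs n p).freeF = p.freeF \ {i | i < n} := by
  induction n with
  | zero =>
    ext i
    simp [allFs]
  | succ n ih =>
    ext i
    simp only [allFs, LFull.freeF, ih, Set.mem_sdiff, Set.mem_ofPred_eq, Set.mem_singleton_iff]
    constructor
    · rintro ⟨⟨h1, h2⟩, h3⟩
      exact ⟨h1, by omega⟩
    · rintro ⟨h1, h2⟩
      exact ⟨⟨h1, by omega⟩, by omega⟩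

lemma allFs_freeL (n : ℕ) (p : LFull) : (allFs n p).freeL = p.freeL := by
  induction n with
  | zero => rfl
  | succ n ih => simp only [allFs, LFull.freeL, ih]

lemma allLs_freeL (n : ℕ) (p : LFull) : (allLs n p).freeL = p.freeL \ {i | i < n} := by
  induction n with
  | zero =>
    ext i
    simp [allLs]
  | succ n ih =>
    ext i
    simp only [allLs, LFull.freeL, ih, Set.mem_sdiff, Set.mem_ofPred_eq, Set.mem_singleton_iff]
    constructor
    · rintro ⟨⟨h1, h2⟩, h3⟩
      exact ⟨h1, by omega⟩
    · rintro ⟨h1, h2⟩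
      exact ⟨⟨h1, by omega⟩, by omega⟩

lemma allLs_freeF (n : ℕ) (p : LFull) : (allLs n p).freeF = p.freeF := by
  induction n with
  | zero => rfl
  | succ n ih => simp only [allLs, LFull.freeF, ih]

section sem

variable {F : Type u} {L : Type v} [Field F] [LieRing L] [LieAlgebra F L]

lemma upd {α : Type*} (n : ℕ) (e x : ℕ → α) :
    (fun i => if i < n then x i else Function.update e n (x n) i) =
      fun i => if i < n + 1 then x i else e i := by
  funext i
  by_cases h : i < n
  · rw [if_pos h, if_pos (by omega)]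
  · rw [if_neg h]
    by_cases h' : i = n
    · subst h'
      rw [if_pos (by omega), Function.update_self]
    · rw [if_neg (by omega), Function.update_of_ne h']

lemma upd' {α : Type*} (n : ℕ) (e x : ℕ → α) (a : α) :
    (fun i => if i < n then x i else Function.update e n a i) =
      fun i => if i < n + 1 then Function.update x n a i else e i := by
  rw [← upd]
  funext i
  by_cases h : i < n
  · rw [if_pos h, if_pos h, Function.update_of_ne (by omega)]
  · rw [if_neg h, if_neg h, Function.update_self]

lemma allFs_holds (n : ℕ) (p : LFull) (e : ℕ → F) (g : ℕ → L) :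
    (allFs n p).Holds e g ↔ ∀ x : ℕ → F, p.Holds (fun i => if i < n then x i else e i) g := by
  induction n generalizing e with
  | zero => simp [allFs]
  | succ n ih =>
    have h1 : (allFs (n + 1) p).Holds e g ↔
        ∀ a : F, (allFs n p).Holds (Function.update e n a) g := Iff.rfl
    rw [h1]
    constructor
    · intro h x
      have h2 := (ih (Function.update e n (x n))).1 (h (x n)) x
      rwa [upd] at h2
    · intro h a
      rw [ih]
      intro x
      rw [upd']
      exact h _

lemma allLs_holds (n : ℕ) (p : LFull) (e : ℕ → F) (g : ℕ → L) :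
    (allLs n p).Holds e g ↔ ∀ y : ℕ → L, p.Holds e (fun i => if i < n then y i else g i) := by
  induction n generalizing g with
  | zero => simp [allLs]
  | succ n ih =>
    have h1 : (allLs (n + 1) p).Holds e g ↔
        ∀ a : L, (allLs n p).Holds e (Function.update g n a) := Iff.rfl
    rw [h1]
    constructor
    · intro h x
      have h2 := (ih (Function.update g n (x n))).1 (h (x n)) x
      rwa [upd] at h2
    · intro h a
      rw [ih]
      intro x
      rw [upd']
      exact h _

end sem

/-- the code of the universal closure -/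
def cl (n : ℕ) : ℕ :=
  Nat.rec (motive := fun _ => ℕ)
    (Nat.rec (motive := fun _ => ℕ) n (fun i a => Nat.pair 6 (Nat.pair i a)) (n + 1))
    (fun i a => Nat.pair 5 (Nat.pair i a)) (n + 1)

lemma allLs_code (n : ℕ) (p : LFull) : (allLs n p).code =
    Nat.rec (motive := fun _ => ℕ) p.code (fun i a => Nat.pair 6 (Nat.pair i a)) n := by
  induction n with
  | zero => rfl
  | succ n ih => simp only [allLs, LFull.code, ih]

lemma allFs_code (n : ℕ) (p : LFull) : (allFs n p).code =
    Nat.rec (motive := fun _ => ℕ) p.code (fun i a => Nat.pair 5 (Nat.pair i a)) n := by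
  induction n with
  | zero => rfl
  | succ n ih => simp only [allFs, LFull.code, ih]

lemma cl_primrec : Primrec cl := by
  have h6 : Primrec₂ fun (_ : ℕ) (q : ℕ × ℕ) => Nat.pair 6 (Nat.pair q.1 q.2) :=
    (Primrec₂.natPair.comp (Primrec.const 6)
      (Primrec₂.natPair.comp (Primrec.fst.comp Primrec.snd) (Primrec.snd.comp Primrec.snd))).to₂
  have h5 : Primrec₂ fun (_ : ℕ) (q : ℕ × ℕ) => Nat.pair 5 (Nat.pair q.1 q.2) :=
    (Primrec₂.natPair.comp (Primrec.const 5)
      (Primrec₂.natPair.comp (Primrec.fst.comp Primrec.snd) (Primrec.snd.comp Primrec.snd))).to₂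
  exact Primrec.nat_rec' Primrec.succ (Primrec.nat_rec' Primrec.succ Primrec.id h6) h5

/-- the universal closure -/
def clo (p : LForm) : LFull := allFs (p.code + 1) (allLs (p.code + 1) (emb p))

lemma clo_code (p : LForm) : (clo p).code = cl p.code := by
  unfold clo cl
  rw [allFs_code, allLs_code, emb_code]

lemma clo_freeF (p : LForm) : (clo p).freeF = ∅ := by
  unfold clo
  rw [allFs_freeF, allLs_freeF]
  ext i
  simp only [Set.mem_sdiff, Set.mem_ofPred_eq, Set.mem_empty_iff_false, iff_false, not_and, not_not]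
  intro h
  have := freeF_le p i h
  omega

lemma clo_freeL (p : LForm) : (clo p).freeL = ∅ := by
  unfold clo
  rw [allFs_freeL, allLs_freeL]
  ext i
  simp only [Set.mem_sdiff, Set.mem_ofPred_eq, Set.mem_empty_iff_false, iff_false, not_and, not_not]
  intro h
  have := freeL_le p i h
  omega

theorem t_LIE : S_LIE.{u, v} := by
  intro F L _ _ _ ⟨f, hf, h⟩
  refine ⟨fun n => f (cl n), hf.comp cl_primrec.to_comp, fun p => ?_⟩
  have h1 := h (clo p) (clo_freeF p) (clo_freeL p)
  rw [clo_code] at h1
  rw [h1]
  unfold clo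
  rw [allFs_holds]
  constructor
  · intro h2 e g
    have h3 := h2 e
    rw [allLs_holds] at h3
    have h4 := h3 g
    rw [emb_holds] at h4
    refine (holds_congr p ?_ ?_).1 h4
    · intro i hi
      have := freeF_le p i hi
      rw [if_pos (by omega)]
    · intro i hi
      have := freeL_le p i hi
      rw [if_pos (by omega)]
  · intro h2 x
    rw [allLs_holds]
    intro y
    rw [emb_holds]
    exact h2 _ _

end Pool.Agent.U591.LA
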